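import Pool.Agent.helper97.KR.Spec

set_option autoImplicit false

namespace Pool.Agent.helper97.KR

open Finset Classical

noncomputable section

theorem CC : CC_stmt := by
  intro V E _ _ ends F
  unfold Pool.Agent.ECO.Connects Con
  have hadj : ∀ a b : V, (SimpleGraph.fromEdgeSet (ends '' F)).Adj a b ↔ Jn ends F a b ∧ a ≠ b := by
    intro a b
    rw [SimpleGraph.fromEdgeSet_adj]
    unfold Jn
    simp only [Set.mem_image]
  constructor
  · intro h u _ v _
    have h1 := (SimpleGraph.reachable_iff_reflTransGen u v).mp (h.preconnected u v)
    clear * - h1 hadj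
    induction h1 with
    | refl => exact Relation.ReflTransGen.refl
    | @tail b c _ hbc ih => exact Relation.ReflTransGen.tail ih ((hadj b c).mp hbc).1
  · intro h
    haveI : Nonempty V := inferInstance
    refine SimpleGraph.Connected.mk ?_
    intro u v
    rw [SimpleGraph.reachable_iff_reflTransGen]
    have h1 := h u (Finset.mem_univ u) v (Finset.mem_univ v)
    clear * - h1 hadj
    induction h1 with
    | refl => exact Relation.ReflTransGen.refl
    | @tail b c _ hbc ih =>
      by_cases hb : b = c
      · rw [← hb]
        exact ih
      · exact Relation.ReflTransGen.tail ih ((hadj b c).mpr ⟨hbc, hb⟩)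

end

end Pool.Agent.helper97.KR
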